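import Pool.Agent.Q127.SM.Stm

/-!
# Representatives of cosets (jobs CO1 and CO2 of project SM)
-/

open Complex Matrix.SpecialLinearGroup MatrixGroups ModularGroup

namespace Pool.Agent.Q224.SM

open Pool.Agent.TH133.SH Pool.Agent.Q127.SM

lemma low00 (c : ℤ) : (low c) 0 0 = 1 := rfl
lemma low01 (c : ℤ) : (low c) 0 1 = 0 := rfl
lemma low10 (c : ℤ) : (low c) 1 0 = c := rfl
lemma low11 (c : ℤ) : (low c) 1 1 = 1 := rfl
lemma trans00 (c : ℤ) : (trans c) 0 0 = 1 := rfl
lemma trans01 (c : ℤ) : (trans c) 0 1 = c := rfl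
lemma trans10 (c : ℤ) : (trans c) 1 0 = 0 := rfl
lemma trans11 (c : ℤ) : (trans c) 1 1 = 1 := rfl

/-- The lower left entry of `g * h⁻¹`. -/
lemma mul_inv10 (g h : SL(2, ℤ)) : (g * h⁻¹) 1 0 = g 1 0 * h 1 1 - g 1 1 * h 1 0 := by
  rw [mul10, inv00, inv10]
  ring

lemma solve {q : ℕ} (hq : q.Prime) {m : ℤ} (hm : ¬ (q : ℤ) ∣ m) (c : ℤ) :
    ∃ v : ℕ, v < q ∧ (q : ℤ) ∣ c - v * m := by
  have h1 : IsCoprime (q : ℤ) m := (Prime.coprime_iff_not_dvd (Nat.prime_iff_prime_int.1 hq)).2 hm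
  obtain ⟨x, y, hxy⟩ := h1
  have hq0 : (0 : ℤ) < q := by exact_mod_cast hq.pos
  have h2 := Int.emod_lt_of_pos (c * y) hq0
  have h3 := Int.emod_nonneg (c * y) hq0.ne'
  refine ⟨((c * y) % q).toNat, by omega, ?_⟩
  rw [Int.toNat_of_nonneg h3]
  have h4 := Int.emod_add_mul_ediv (c * y) q
  refine ⟨c * x + ((c * y) / q) * m, ?_⟩
  linear_combination (-c) * hxy - m * h4

lemma eq_of_dvd {q v w : ℕ} (hv : v < q) (hw : w < q) (h : (q : ℤ) ∣ (v : ℤ) - w) : v = w := by
  have h1 := Int.eq_zero_of_abs_lt_dvd h (by rw [abs_lt]; constructor <;> omega)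
  omega

lemma not_dvd_lower {N q : ℕ} (hq : q.Prime) {g : SL(2, ℤ)} (hg : (q : ℤ) ∣ g 1 0) :
    ¬ (q : ℤ) ∣ g 1 1 := by
  intro h
  have h1 := det_eq g
  have h2 : (q : ℤ) ∣ 1 := by
    rw [← h1]
    exact dvd_sub (h.mul_left _) (hg.mul_left _)
  have h3 := (Nat.prime_iff_prime_int.1 hq).not_unit
  exact h3 (isUnit_of_dvd_one h2)

theorem co1 : S_co1 := by
  intro N q hN hq
  have hN0 : (N : ℤ) ≠ 0 := by exact_mod_cast (by omega : N ≠ 0)
  have hq0 : (q : ℤ) ≠ 0 := by exact_mod_cast hq.ne_zero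
  refine ⟨?_, ?_, ?_⟩
  · intro v _
    unfold InG
    rw [low10]
    push_cast
    exact dvd_mul_right _ _
  · intro g hg
    obtain ⟨c, hc⟩ := hg
    push_cast at hc
    obtain ⟨v, hv, k, hk⟩ := solve hq (m := g 1 1)
      (not_dvd_lower (N := N) hq ⟨N * c, by rw [hc]; ring⟩) c
    refine ⟨v, hv, k, ?_⟩
    rw [mul_inv10, low11, low10, hc]
    push_cast
    linear_combination (N : ℤ) * q * hk
  · intro v hv w hw h
    unfold InG at h
    rw [mul_inv10, low11, low10, low11, low10] at h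
    apply eq_of_dvd hv hw
    have e : (N : ℤ) * q * v * 1 - 1 * ((N : ℤ) * q * w) = (N * q) * ((v : ℤ) - w) := by ring
    rw [e] at h
    push_cast at h
    rw [show (N : ℤ) * (q : ℤ) ^ 2 = (N * q) * q by ring] at h
    exact (mul_dvd_mul_iff_left (mul_ne_zero hN0 hq0)).1 h

theorem co2 : S_co2 := by
  intro N q j hN hq hqN hj
  have hN0 : (N : ℤ) ≠ 0 := by exact_mod_cast (by omega : N ≠ 0)
  have hq0 : (q : ℤ) ≠ 0 := by exact_mod_cast hq.ne_zero
  obtain ⟨k₀, hk₀⟩ := hj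
  have hk₀' : (1 : ℤ) + N * j = q * k₀ := by exact_mod_cast hk₀
  have hqN' : ¬ (q : ℤ) ∣ (N : ℤ) := by
    intro h
    exact hqN (by exact_mod_cast h)
  have hp := Nat.prime_iff_prime_int.1 hq
  have hrep : ∀ v, v < q + 1 → InG N (rep₂ N q j v) := by
    intro v _
    unfold InG rep₂
    split_ifs with hv
    · rw [low10]
      exact dvd_mul_right _ _
    · rw [mul10, low10, low11, trans00, trans10]
      simp
  have key : ∀ v, v < q → ¬ InG (N * q) (rep₂ N q j v * (rep₂ N q j q)⁻¹) := by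
    intro v hv h
    unfold InG rep₂ at h
    rw [if_pos hv, if_neg (lt_irrefl q), mul_inv10, mul10, mul11, low10, low11, low10, low11,
      trans00, trans10, trans01, trans11] at h
    have e : (N : ℤ) * v * (N * j + 1 * 1) - 1 * (N * 1 + 1 * 0) =
        N * (v * (1 + N * j) - 1) := by ring
    rw [e] at h
    push_cast at h
    have h1 := (mul_dvd_mul_iff_left hN0).1 h
    rw [hk₀'] at h1
    have h2 : (q : ℤ) ∣ 1 := by
      have h3 : (q : ℤ) ∣ v * (q * k₀) := ⟨v * k₀, by ring⟩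
      have h4 := dvd_sub h3 h1
      simpa using h4
    exact hp.not_unit (isUnit_of_dvd_one h2)
  refine ⟨hrep, ?_, ?_⟩
  · intro g hg
    obtain ⟨c, hc⟩ := hg
    by_cases hq1 : (q : ℤ) ∣ g 1 1
    · refine ⟨q, by omega, ?_⟩
      obtain ⟨d, hd⟩ := hq1
      unfold InG rep₂
      rw [if_neg (lt_irrefl q), mul_inv10, mul10, mul11, low10, low11, trans00, trans10, trans01,
        trans11, hc, hd]
      refine ⟨c * k₀ - d, ?_⟩
      push_cast
      linear_combination (N : ℤ) * c * hk₀'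
    · obtain ⟨v, hv, k, hk⟩ := solve hq (m := g 1 1) hq1 c
      refine ⟨v, by omega, k, ?_⟩
      unfold rep₂
      rw [if_pos hv, mul_inv10, low11, low10, hc]
      push_cast
      linear_combination (N : ℤ) * hk
  · intro v hv w hw h
    rcases Nat.lt_or_ge v q with hv' | hv'
    · rcases Nat.lt_or_ge w q with hw' | hw'
      · unfold InG rep₂ at h
        rw [if_pos hv', if_pos hw', mul_inv10, low11, low10, low11, low10] at h
        apply eq_of_dvd hv' hw'
        have e : (N : ℤ) * v * 1 - 1 * ((N : ℤ) * w) = N * ((v : ℤ) - w) := by ring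
        rw [e] at h
        push_cast at h
        exact (mul_dvd_mul_iff_left hN0).1 h
      · obtain rfl : w = q := by omega
        exact absurd h (key v hv')
    · obtain rfl : v = q := by omega
      rcases Nat.lt_or_ge w v with hw' | hw'
      · have h1 := h.inv
        rw [mul_inv_rev, inv_inv] at h1
        exact absurd h1 (key w hw')
      · omega

end Pool.Agent.Q224.SM
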