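import Pool.Agent.Q127.SM.Stm

/-!
# Sums over cosets (jobs ST1 and ST2 of project SM)
-/

open Complex Matrix.SpecialLinearGroup MatrixGroups ModularGroup

namespace Pool.Agent.Q224.SM

open Pool.Agent.TH133.SH Pool.Agent.Q127.SM

variable {N q : ℕ} {a : ℕ → ℤ}

/-- Inversion modulo `q`. -/
lemma exists_inv (hq : q.Prime) (hN : ¬ q ∣ N) :
    ∃ u : ℕ → ℕ, ∀ v, 0 < v → v < q →
      0 < u v ∧ u v < q ∧ u (u v) = v ∧ (q : ℤ) ∣ 1 - u v * ((N : ℤ) * v) := by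
  haveI : Fact q.Prime := ⟨hq⟩
  have hN0 : (N : ZMod q) ≠ 0 := by
    intro h
    exact hN ((ZMod.natCast_eq_zero_iff _ _).1 h)
  refine ⟨fun v => ((N : ZMod q) * (v : ZMod q))⁻¹.val, fun v hv0 hvq => ?_⟩
  have hv : (v : ZMod q) ≠ 0 := by
    intro h
    have := (ZMod.natCast_eq_zero_iff _ _).1 h
    exact absurd (Nat.le_of_dvd hv0 this) (by omega)
  have hi : ((N : ZMod q) * (v : ZMod q))⁻¹ ≠ 0 := inv_ne_zero (mul_ne_zero hN0 hv)
  refine ⟨?_, ZMod.val_lt _, ?_, ?_⟩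
  · rw [Nat.pos_iff_ne_zero]
    intro h
    exact hi ((ZMod.val_eq_zero _).1 h)
  · change (((N : ZMod q) * ((((N : ZMod q) * (v : ZMod q))⁻¹.val : ℕ) : ZMod q))⁻¹).val = v
    rw [ZMod.natCast_zmod_val]
    have e : ((N : ZMod q) * ((N : ZMod q) * (v : ZMod q))⁻¹)⁻¹ = (v : ZMod q) := by
      field_simp
    rw [e, ZMod.val_natCast_of_lt hvq]
  · rw [← ZMod.intCast_zmod_eq_zero_iff_dvd]
    push_cast
    rw [ZMod.natCast_zmod_val]
    rw [inv_mul_cancel₀ (mul_ne_zero hN0 hv), sub_self]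

/-- Sums over the invertible residues. -/
lemma sum_inv {u : ℕ → ℕ} (hu : ∀ v, 0 < v → v < q → 0 < u v ∧ u v < q ∧ u (u v) = v)
    (g : ℕ → ℂ) : ∑ v ∈ Finset.Ico 1 q, g (u v) = ∑ v ∈ Finset.Ico 1 q, g v := by
  refine Finset.sum_nbij' u u ?_ ?_ ?_ ?_ ?_
  · intro v hv
    rw [Finset.mem_Ico] at hv ⊢
    have := hu v (by omega) hv.2
    omega
  · intro v hv
    rw [Finset.mem_Ico] at hv ⊢
    have := hu v (by omega) hv.2
    omega
  · intro v hv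
    rw [Finset.mem_Ico] at hv
    exact (hu v (by omega) hv.2).2.2
  · intro v hv
    rw [Finset.mem_Ico] at hv
    exact (hu v (by omega) hv.2).2.2
  · intro v hv
    rfl

lemma sum_split (hq : 0 < q) (g : ℕ → ℂ) :
    ∑ v ∈ Finset.range q, g v = g 0 + ∑ v ∈ Finset.Ico 1 q, g v := by
  rw [Finset.range_eq_Ico, Finset.sum_eq_sum_Ico_succ_bot hq]

lemma act_mk (p r x y : ℤ) (h : p * y - r * x = 1) (τ : ℂ) :
    act (mk p r x y h) τ = ((p : ℂ) * τ + (r : ℂ)) / ((x : ℂ) * τ + (y : ℂ)) := by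
  unfold act mob TH133.SH.mk
  push_cast
  rfl

lemma act_low (c : ℤ) (τ : ℂ) : act (low c) τ = τ / ((c : ℂ) * τ + 1) := by
  unfold low
  rw [act_mk]
  simp

lemma act_trans (c : ℤ) (τ : ℂ) : act (trans c) τ = τ + c := by
  unfold Q127.SM.trans
  rw [act_mk]
  simp

lemma low_ne (c : ℤ) {τ : ℂ} (hτ : 0 < τ.im) : (c : ℂ) * τ + 1 ≠ 0 := by
  have h := den_ne (p := 1) (q := 0) (r := (c : ℝ)) (s := 1) (by ring) hτ
  push_cast at h
  exact h

lemma Hs_low (ha : IsForm N a) {c : ℤ} (hc : (N : ℤ) ∣ c) : Hs a (low c) = 0 :=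
  Hs_parabolic ha (show (N : ℤ) ∣ (low c) 1 0 from hc)
    (by change ((1 : ℤ) + 1) ^ 2 = 4; norm_num)

lemma Hs_trans (ha : IsForm N a) (j : ℤ) : Hs a (trans j) = 0 :=
  Hs_parabolic ha (show (N : ℤ) ∣ (trans j) 1 0 from dvd_zero _)
    (by change ((1 : ℤ) + 1) ^ 2 = 4; norm_num)

lemma Fser_low (ha : IsForm N a) {c : ℤ} (hc : (N : ℤ) ∣ c) {τ : ℂ} (hτ : 0 < τ.im) :
    Fser a (act (low c) τ) = Fser a τ := by
  have h := diff_eq ha (g := low c) hc hτ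
  rw [Hs_low ha hc] at h
  exact sub_eq_zero.1 h

lemma low_zero (τ : ℂ) : act (low 0) τ = τ := by
  rw [act_low]
  simp

lemma im_nat_mul {m : ℕ} (hm : 0 < m) {τ : ℂ} (hτ : 0 < τ.im) : 0 < ((m : ℂ) * τ).im := by
  have h : ((m : ℂ) * τ).im = m * τ.im := by simp [Complex.mul_im]
  rw [h]
  have : (0 : ℝ) < m := by exact_mod_cast hm
  positivity

lemma im_div_nat {m : ℕ} (hm : 0 < m) {τ : ℂ} (hτ : 0 < τ.im) : 0 < (τ / (m : ℂ)).im := by
  have h : (τ / (m : ℂ)).im = τ.im / m := by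
    rw [Complex.div_natCast_im]
  rw [h]
  have : (0 : ℝ) < m := by exact_mod_cast hm
  positivity

/-- `q * act (low (c q)) τ = act (low c) (q τ)`. -/
lemma mul_act_low (c : ℤ) {τ : ℂ} (hτ : 0 < τ.im) (hq : 0 < q) :
    (q : ℂ) * act (low (c * q)) τ = act (low c) ((q : ℂ) * τ) := by
  rw [act_low, act_low]
  have h1 := low_ne (c * q) hτ
  have h2 := low_ne c (im_nat_mul hq hτ)
  push_cast at h1
  push_cast
  rw [mul_div_assoc', div_eq_div_iff h1 h2]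
  ring

/-- The matrix `(q, -u; c, k)`. -/
lemma shift_act {c u k : ℤ} (h : (q : ℤ) * k - -u * c = 1) {τ : ℂ} (hτ : 0 < τ.im) (hq : 0 < q) :
    (q : ℂ) * act (low c) τ = act (mk q (-u) c k h) ((τ + (u : ℂ)) / (q : ℂ)) := by
  rw [act_low, act_mk]
  have h1 := low_ne c hτ
  have hq0 : (q : ℂ) ≠ 0 := by exact_mod_cast hq.ne'
  have h' : (q : ℂ) * k + u * c = 1 := by
    have : (q : ℤ) * k + u * c = 1 := by linarith
    exact_mod_cast this
  have e : (c : ℂ) * ((τ + (u : ℂ)) / (q : ℂ)) + (k : ℂ) = ((c : ℂ) * τ + 1) / q := by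
    field_simp
    linear_combination h'
  rw [e]
  push_cast
  field_simp
  ring

lemma Fser_shift (ha : IsForm N a) {c u k : ℤ} (hc : (N : ℤ) ∣ c)
    (h : (q : ℤ) * k - -u * c = 1) {τ : ℂ} (hτ : 0 < τ.im) (hq : 0 < q) :
    Fser a ((q : ℂ) * act (low c) τ) =
      Fser a ((τ + (u : ℂ)) / (q : ℂ)) + Hs a (mk q (-u) c k h) := by
  rw [shift_act h hτ hq]
  have h1 := diff_eq ha (g := mk q (-u) c k h) hc (τ := (τ + (u : ℂ)) / (q : ℂ))
    (im_div_nat hq (by simpa using hτ))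
  rw [← h1]
  ring

/-- The sum over the matrices `low (N v)` with `0 < v < q`. -/
lemma sum_shift (ha : IsForm N a) (hq : q.Prime) (hN : ¬ q ∣ N) :
    ∃ C : ℂ, ∀ τ : ℂ, 0 < τ.im →
      ∑ v ∈ Finset.Ico 1 q, Fser a ((q : ℂ) * act (low ((N : ℤ) * v)) τ) =
        ∑ u ∈ Finset.Ico 1 q, Fser a ((τ + (u : ℂ)) / (q : ℂ)) + C := by
  obtain ⟨u, hu⟩ := exists_inv hq hN
  have hk : ∀ v, ∃ k : ℤ, 0 < v → v < q → (q : ℤ) * k - -(u v : ℤ) * ((N : ℤ) * v) = 1 := by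
    intro v
    by_cases h : 0 < v ∧ v < q
    · obtain ⟨k, hk⟩ := (hu v h.1 h.2).2.2.2
      exact ⟨k, fun _ _ => by linarith⟩
    · exact ⟨0, fun h1 h2 => absurd ⟨h1, h2⟩ h⟩
  choose k hk using hk
  have hH : ∀ v, ∃ H : ℂ, ∀ (h0 : 0 < v) (h1 : v < q),
      H = Hs a (mk q (-(u v : ℤ)) ((N : ℤ) * v) (k v) (hk v h0 h1)) := by
    intro v
    by_cases h : 0 < v ∧ v < q
    · exact ⟨Hs a (mk q (-(u v : ℤ)) ((N : ℤ) * v) (k v) (hk v h.1 h.2)), fun _ _ => rfl⟩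
    · exact ⟨0, fun h1 h2 => absurd ⟨h1, h2⟩ h⟩
  choose H hH using hH
  refine ⟨∑ v ∈ Finset.Ico 1 q, H v, fun τ hτ => ?_⟩
  rw [← sum_inv (u := u) (fun v h0 h1 => ⟨(hu v h0 h1).1, (hu v h0 h1).2.1, (hu v h0 h1).2.2.1⟩)
    (fun v => Fser a ((τ + (v : ℂ)) / (q : ℂ))), ← Finset.sum_add_distrib]
  apply Finset.sum_congr rfl
  intro v hv
  rw [Finset.mem_Ico] at hv
  have h0 : 0 < v := by omega
  have h1 := Fser_shift ha (c := (N : ℤ) * v) (u := (u v : ℤ)) (k := k v) (dvd_mul_right _ _)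
    (hk v h0 hv.2) hτ hq.pos
  rw [h1, ← hH v h0 hv.2]
  push_cast
  rfl

theorem st1 (h1 : S_cop) (h2 : S_hkF) : S_st1 := by
  intro N a q hN ha hq hqN hH
  obtain ⟨C, hC⟩ := sum_shift ha hq hqN
  have hq0 : (q : ℂ) ≠ 0 := by exact_mod_cast hq.ne_zero
  refine ⟨(1 / (q : ℂ)) * C, fun τ hτ => ?_⟩
  have hqτ : 0 < ((q : ℂ) * τ).im := im_nat_mul hq.pos hτ
  have e1 : ∀ v : ℕ, Fser (cop a q) (act (low ((N : ℤ) * q * v)) τ) =
      Fser a τ - ((a q : ℂ) / (q : ℂ)) * Fser a ((q : ℂ) * τ) +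
        (1 / (q : ℂ)) * Fser a ((q : ℂ) * act (low ((N : ℤ) * v)) ((q : ℂ) * τ)) := by
    intro v
    rw [h1 a q hq ha.zero ha.summable hH _ (act_im_pos _ hτ)]
    rw [Fser_low ha (c := (N : ℤ) * q * v) ⟨q * v, by ring⟩ hτ]
    have e : (N : ℤ) * q * v = (N * v) * q := by ring
    have e' : (q : ℂ) * act (low ((N : ℤ) * q * v)) τ = act (low ((N : ℤ) * v)) ((q : ℂ) * τ) := by
      rw [e]
      exact mul_act_low _ hτ hq.pos
    have e'' : (q : ℂ) ^ 2 * act (low ((N : ℤ) * q * v)) τ =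
        (q : ℂ) * act (low ((N : ℤ) * v)) ((q : ℂ) * τ) := by
      rw [← e']
      ring
    rw [e'', e', Fser_low ha (c := (N : ℤ) * v) (dvd_mul_right _ _) hqτ]
  rw [Finset.sum_congr rfl (fun v _ => e1 v), Finset.sum_add_distrib, Finset.sum_const,
    Finset.card_range, ← Finset.mul_sum, sum_split hq.pos, hC _ hqτ]
  have h3 := h2 a q hq ha.zero ha.summable hH _ hqτ
  rw [sum_split hq.pos] at h3
  have e2 : act (low ((N : ℤ) * ((0 : ℕ) : ℤ))) ((q : ℂ) * τ) = (q : ℂ) * τ := by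
    rw [Nat.cast_zero, mul_zero, low_zero]
  have e3 : ((q : ℂ) * τ + ((0 : ℕ) : ℂ)) / (q : ℂ) = τ := by
    rw [Nat.cast_zero, add_zero]
    field_simp
  rw [e3] at h3
  rw [e2, nsmul_eq_mul]
  have h4 : ∑ v ∈ Finset.Ico 1 q, Fser a (((q : ℂ) * τ + (v : ℂ)) / (q : ℂ)) =
      (a q : ℂ) * Fser a ((q : ℂ) * τ) - Fser a τ - Fser a ((q : ℂ) * ((q : ℂ) * τ)) := by
    linear_combination h3
  rw [h4]
  field_simp
  ring

theorem st2 (h : S_hkF) : S_st2 := by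
  intro N a q j hN ha hq hqN hj hH
  obtain ⟨C, hC⟩ := sum_shift ha hq hqN
  have hq0 : (q : ℂ) ≠ 0 := by exact_mod_cast hq.ne_zero
  obtain ⟨k₀, hk₀⟩ := hj
  have hdet : (q : ℤ) * (k₀ : ℤ) - (j : ℤ) * (N : ℤ) = 1 := by
    have : (1 : ℤ) + N * j = q * k₀ := by exact_mod_cast hk₀
    linarith
  set γ := mk q j N k₀ hdet with hγ
  refine ⟨-(a q : ℂ) * (C + Hs a γ), fun τ hτ => ?_⟩
  have hlast : ¬ q < q := lt_irrefl q
  -- the first part
  have f1 : ∀ v : ℕ, Fser a (act (rep₂ N q j v) τ) = Fser a τ := by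
    intro v
    unfold rep₂
    split_ifs with hv
    · exact Fser_low ha (dvd_mul_right _ _) hτ
    · rw [act_mul _ _ hτ, Fser_low ha (dvd_refl _) (act_im_pos _ hτ)]
      have h3 := diff_eq ha (g := trans (j : ℤ)) (show (N : ℤ) ∣ (trans (j : ℤ)) 1 0 from dvd_zero _)
        hτ
      rw [Hs_trans ha] at h3
      exact sub_eq_zero.1 h3
  -- the last matrix
  have f2 : Fser a ((q : ℂ) * act (rep₂ N q j q) τ) = Fser a (τ / (q : ℂ)) + Hs a γ := by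
    have h3 := diff_eq ha (g := γ) (show (N : ℤ) ∣ γ 1 0 from dvd_refl _)
      (τ := τ / (q : ℂ)) (im_div_nat hq.pos hτ)
    rw [← h3]
    have e : (q : ℂ) * act (rep₂ N q j q) τ = act γ (τ / (q : ℂ)) := by
      unfold rep₂
      rw [if_neg hlast, act_mul _ _ hτ, act_trans, act_low, hγ, act_mk]
      have hτ' : 0 < (τ + ((j : ℤ) : ℂ)).im := by simpa using hτ
      have h4 := low_ne (N : ℤ) hτ'
      have h5 : (q : ℂ) * k₀ - (j : ℂ) * N = 1 := by exact_mod_cast hdet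
      push_cast at h4 ⊢
      have e5 : (N : ℂ) * (τ / (q : ℂ)) + (k₀ : ℂ) = ((N : ℂ) * (τ + (j : ℂ)) + 1) / q := by
        field_simp
        linear_combination h5
      rw [e5]
      field_simp
    rw [e]
    ring
  have f3 : ∀ v ∈ Finset.range q, Fser a ((q : ℂ) * act (rep₂ N q j v) τ) =
      Fser a ((q : ℂ) * act (low ((N : ℤ) * v)) τ) := by
    intro v hv
    unfold rep₂
    rw [if_pos (Finset.mem_range.1 hv)]
  rw [Finset.sum_sub_distrib, ← Finset.mul_sum, ← Finset.mul_sum,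
    Finset.sum_congr rfl (fun v _ => f1 v), Finset.sum_const, Finset.card_range,
    Finset.sum_range_succ, f2, Finset.sum_congr rfl f3, sum_split hq.pos, hC τ hτ]
  have h3 := h a q hq ha.zero ha.summable hH τ hτ
  rw [sum_split hq.pos] at h3
  have e2 : act (low ((N : ℤ) * ((0 : ℕ) : ℤ))) τ = τ := by
    rw [Nat.cast_zero, mul_zero, low_zero]
  have e3 : (τ + ((0 : ℕ) : ℂ)) / (q : ℂ) = τ / (q : ℂ) := by
    rw [Nat.cast_zero, add_zero]
  rw [e3] at h3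
  have h4 : ∑ v ∈ Finset.Ico 1 q, Fser a ((τ + (v : ℂ)) / (q : ℂ)) =
      (a q : ℂ) * Fser a τ - Fser a (τ / (q : ℂ)) - Fser a ((q : ℂ) * τ) := by
    linear_combination h3
  rw [e2, h4, nsmul_eq_mul]
  push_cast
  ring

end Pool.Agent.Q224.SM
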